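import Pool.Agent.W184.LIP.Defs

/-!
# Long induced paths in graphs of bounded treewidth: bounds which are uniform in the treewidth
-/

set_option autoImplicit false

namespace Pool.Agent.Y125.LIP

open Pool.Agent.W184.LIP

theorem log_le_half {y : ℝ} (hy : 0 < y) : Real.log y ≤ y / 2 := by
  have h1 := Real.log_le_sub_one_of_pos (show 0 < y / 2 by positivity)
  have h2 : Real.log y = Real.log (y / 2) + Real.log 2 := by
    rw [← Real.log_mul (by positivity) (by norm_num)]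
    congr 1
    ring
  have h3 := Real.log_le_sub_one_of_pos (show (0 : ℝ) < 2 by norm_num)
  rw [h2]
  linarith

theorem one_lt_log {n : ℕ} (hn : 3 ≤ n) : 1 < Real.log n := by
  have hn3 : (3 : ℝ) ≤ n := by exact_mod_cast hn
  rw [Real.lt_log_iff_exp_lt (by linarith)]
  have := Real.exp_one_lt_d9
  linarith

theorem root_pow {x : ℝ} (hx : 0 ≤ x) {j : ℕ} (hj : 1 ≤ j) : (x ^ ((1 : ℝ) / j)) ^ j = x := by
  have hj0 : (0 : ℝ) < j := by exact_mod_cast hj
  rw [← Real.rpow_natCast, ← Real.rpow_mul hx, one_div_mul_cancel hj0.ne', Real.rpow_one]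

/-- the largest admissible integer -/
theorem choose {F : ℕ} {α : ℝ} (h1 : 1 ≤ F) (h : ∀ s : ℕ, 1 ≤ s → (s : ℝ) < α → s + 1 ≤ F) :
    α ≤ F := by
  by_contra hc
  push Not at hc
  have := h F h1 hc
  omega

/-- the lower bound for even treewidth -/
theorem lower_even (hF : S_FLB) {j n : ℕ} (hj : 1 ≤ j) (hn : 3 ≤ n) (h1 : 1 ≤ f (2 * j) n) :
    Real.log n ^ ((1 : ℝ) / j) / 20 ≤ (f (2 * j) n : ℝ) := by
  have hL := one_lt_log hn
  have hj1 : (1 : ℝ) ≤ j := by exact_mod_cast hj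
  refine choose h1 fun s hs hlt => ?_
  have hs1 : (1 : ℝ) ≤ s := by exact_mod_cast hs
  obtain ⟨Y, hY⟩ : ∃ Y, Y = Real.log n ^ ((1 : ℝ) / j) := ⟨_, rfl⟩
  have hYj : Y ^ j = Real.log n := by rw [hY]; exact root_pow (by linarith) hj
  rw [← hY] at hlt
  -- the main inequality
  obtain ⟨L, hLdef⟩ : ∃ L : ℝ, L = (2 * (s : ℝ)) ^ j := ⟨_, rfl⟩
  have hL2 : 2 ≤ L := by
    rw [hLdef]
    calc (2 : ℝ) ≤ 2 * s := by linarith
      _ ≤ (2 * (s : ℝ)) ^ j := le_self_pow₀ (by linarith) (by omega)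
  have h10 : 10 * (j : ℝ) ≤ 10 ^ j := by
    have h2 : j + 1 ≤ 10 ^ (j - 1) * 2 := by
      have : j - 1 < 2 ^ (j - 1) := Nat.lt_two_pow_self
      have h3 : 2 ^ (j - 1) ≤ 10 ^ (j - 1) := Nat.pow_le_pow_left (by norm_num) _
      omega
    have h3 : j ≤ 10 ^ (j - 1) := by
      have : j - 1 < 2 ^ (j - 1) := Nat.lt_two_pow_self
      have h3 : 2 ^ (j - 1) ≤ 10 ^ (j - 1) := Nat.pow_le_pow_left (by norm_num) _
      omega
    have h4 : 10 * j ≤ 10 ^ j := by
      calc 10 * j ≤ 10 * 10 ^ (j - 1) := by omega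
        _ = 10 ^ (j - 1 + 1) := by rw [pow_succ]; ring
        _ = 10 ^ j := by rw [Nat.sub_add_cancel hj]
    exact_mod_cast h4
  have hmain : 10 * j * L < Real.log n := by
    calc 10 * j * L ≤ 10 ^ j * L := mul_le_mul_of_nonneg_right h10 (by linarith)
      _ = (20 * (s : ℝ)) ^ j := by rw [hLdef, ← mul_pow]; ring
      _ < Y ^ j := pow_lt_pow_left₀ (by linarith) (by positivity) (by omega)
      _ = Real.log n := hYj
  -- logarithms
  have hlogL : Real.log L ≤ L / 2 := log_le_half (by linarith)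
  have hlogL2 : Real.log L = j * Real.log (2 * s) := by rw [hLdef, Real.log_pow]
  have hlogs : Real.log (2 * s) ≤ s := by
    have := log_le_half (show (0 : ℝ) < 2 * s by linarith)
    linarith
  have hpow1 : (2 * (s : ℝ)) ^ (j - 1) * (2 * s) = L := by
    rw [hLdef, ← pow_succ, Nat.sub_add_cancel hj]
  have hpow2 : (2 * (s : ℝ)) ^ (2 * j) = L ^ 2 := by rw [hLdef, ← pow_mul, mul_comm 2 j]
  obtain ⟨M, hM⟩ : ∃ M : ℝ, M = (2 * (s : ℝ)) ^ (j - 1) := ⟨_, rfl⟩
  have hM0 : 0 < M := by rw [hM]; positivity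
  have hMs : M * (2 * s) = L := by rw [hM]; exact hpow1
  have hML : 2 * M ≤ L := by nlinarith
  have hlogA : Real.log (11 * (L ^ 2 + 1)) ≤ 27 / 10 + 2 * Real.log L := by
    have h2 : Real.log (11 * (L ^ 2 + 1)) ≤ Real.log (14 * L ^ 2) := by
      apply Real.log_le_log (by positivity)
      nlinarith
    have h3 : Real.log (14 * L ^ 2) = Real.log 14 + 2 * Real.log L := by
      rw [Real.log_mul (by norm_num) (by positivity), Real.log_pow]
      push_cast
      ring
    have h4 : Real.log 14 ≤ 27 / 10 := by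
      rw [Real.log_le_iff_le_exp (by norm_num)]
      have h5 : (2.7182818283 : ℝ) < Real.exp 1 := Real.exp_one_gt_d9
      have h6 : Real.exp (27 / 10) = Real.exp 1 ^ 2 * Real.exp (7 / 10) := by
        rw [← Real.exp_nat_mul, ← Real.exp_add]
        norm_num
      have h7 : 1 + 7 / 10 + (7 / 10) ^ 2 / 2 ≤ Real.exp (7 / 10) :=
        Real.quadratic_le_exp_of_nonneg (by norm_num)
      rw [h6]
      have h8 : (7.3 : ℝ) ≤ Real.exp 1 ^ 2 := by nlinarith
      nlinarith
    linarith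
  have hlog4 : Real.log 4 ≤ 14 / 10 := by
    have h2 : Real.log 4 = 2 * Real.log 2 := by
      rw [show (4 : ℝ) = 2 ^ 2 by norm_num, Real.log_pow]
      push_cast
      ring
    have := Real.log_two_lt_d9
    rw [h2]
    linarith
  have hfin : (2 * M + 1) * Real.log (11 * (L ^ 2 + 1)) + 2 * L * Real.log 4 ≤ 10 * j * L := by
    have e1 : 2 * M * (27 / 10) ≤ L * (27 / 10) := by nlinarith
    have e2 : 2 * M * (2 * Real.log L) ≤ 2 * j * L := by
      rw [hlogL2]
      have : 2 * M * (2 * (j * Real.log (2 * s))) ≤ 2 * M * (2 * (j * s)) := by gcongr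
      calc _ ≤ 2 * M * (2 * (j * s)) := this
        _ = 2 * j * L := by rw [← hMs]; ring
    have e3 : (2 * M + 1) * Real.log (11 * (L ^ 2 + 1)) ≤ (2 * M + 1) * (27 / 10 + 2 * Real.log L) :=
      mul_le_mul_of_nonneg_left hlogA (by linarith)
    have e4 : 2 * L * Real.log 4 ≤ 2 * L * (14 / 10) := mul_le_mul_of_nonneg_left hlog4 (by linarith)
    have e5 : L * 8 ≤ j * L * 8 := by nlinarith
    nlinarith
  have hlt2 : (11 * ((2 * s) ^ (2 * j) + 1)) ^ (2 * (2 * s) ^ (j - 1) + 1) * 4 ^ (2 * (2 * s) ^ j) < n := by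
    have hn0 : (0 : ℝ) < n := by
      have : (3 : ℝ) ≤ n := by exact_mod_cast hn
      linarith
    have h2 : ((11 * ((2 * (s : ℝ)) ^ (2 * j) + 1)) ^ (2 * (2 * s) ^ (j - 1) + 1) *
        4 ^ (2 * (2 * s) ^ j) : ℝ) < n := by
      rw [← Real.log_lt_log_iff (by positivity) hn0, Real.log_mul (by positivity) (by positivity),
        Real.log_pow, Real.log_pow]
      push_cast
      rw [hpow2, ← hM, ← hLdef]
      linarith
    exact_mod_cast h2
  exact hF (2 * j) (j - 1) j s n hs (by omega) (by omega) (by omega) hlt2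

/-- the lower bound for odd treewidth, large `n` -/
theorem lower_odd (hF : S_FLB) {j n : ℕ} (hj : 1 ≤ j) (hn : 3 ≤ n) (h1 : 1 ≤ f (2 * j + 1) n) :
    (Real.log n / Real.log (Real.log n)) ^ ((1 : ℝ) / j) / 44 ≤ (f (2 * j + 1) n : ℝ) := by
  have hL := one_lt_log hn
  have hj1 : (1 : ℝ) ≤ j := by exact_mod_cast hj
  have hn3 : (3 : ℝ) ≤ n := by exact_mod_cast hn
  obtain ⟨ℓ, hℓ⟩ : ∃ ℓ : ℝ, ℓ = Real.log n := ⟨_, rfl⟩
  obtain ⟨m', hmu⟩ : ∃ m' : ℝ, m' = Real.log ℓ := ⟨_, rfl⟩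
  rw [← hℓ] at hL ⊢
  rw [← hmu]
  have hmu0 : 0 < m' := by rw [hmu]; exact Real.log_pos hL
  obtain ⟨x, hx⟩ : ∃ x : ℝ, x = ℓ / m' := ⟨_, rfl⟩
  have hxmu : x * m' = ℓ := by rw [hx]; exact div_mul_cancel₀ _ hmu0.ne'
  have hx0 : 0 < x := by rw [hx]; positivity
  rw [← hx]
  rcases le_or_gt x 44 with hx44 | hx44
  · -- trivial range
    have h2 : x ^ ((1 : ℝ) / j) ≤ 44 := by
      calc x ^ ((1 : ℝ) / j) ≤ (44 : ℝ) ^ ((1 : ℝ) / j) :=
            Real.rpow_le_rpow hx0.le hx44 (by positivity)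
        _ ≤ (44 : ℝ) ^ (1 : ℝ) := by
            apply Real.rpow_le_rpow_of_exponent_le (by norm_num)
            rw [div_le_one (by linarith)]
            exact hj1
        _ = 44 := Real.rpow_one _
    have h3 : (1 : ℝ) ≤ f (2 * j + 1) n := by exact_mod_cast h1
    linarith
  · -- `1 ≤ m'`
    have hℓ3 : 109 / 100 ≤ ℓ := by
      rw [hℓ, Real.le_log_iff_exp_le (by linarith)]
      have h2 : Real.exp (109 / 100) = Real.exp 1 * Real.exp (9 / 100) := by
        rw [← Real.exp_add]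
        norm_num
      have h3 : Real.exp (9 / 100) ≤ 1 / (1 - 9 / 100) := by
        have := Real.exp_bound_div_one_sub_of_interval' (x := 9 / 100) (by norm_num) (by norm_num)
        exact this.le
      have h4 := Real.exp_one_lt_d9
      have h5 := Real.exp_pos (9 / 100 : ℝ)
      rw [h2]
      calc Real.exp 1 * Real.exp (9 / 100) ≤ 2.7182818286 * (1 / (1 - 9 / 100)) := by gcongr
        _ ≤ 3 := by norm_num
        _ ≤ n := hn3
    have hmu1 : 1 ≤ m' := by
      by_contra hc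
      push Not at hc
      -- then ℓ < e and m' ≥ 1 - 1/ℓ
      have h2 : ℓ < Real.exp 1 := by
        rw [← Real.log_lt_iff_lt_exp (by linarith), ← hmu]
        exact hc
      have h3 : 1 - ℓ⁻¹ ≤ m' := by rw [hmu]; exact Real.one_sub_inv_le_log_of_pos (by linarith)
      have h4 : ℓ⁻¹ ≤ 100 / 109 := by
        rw [inv_le_comm₀ (by linarith) (by norm_num)]
        norm_num
        linarith
      have h5 := Real.exp_one_lt_d9
      nlinarith
    have hxℓ : x ≤ ℓ := by nlinarith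
    refine choose h1 fun s hs hlt => ?_
    have hs1 : (1 : ℝ) ≤ s := by exact_mod_cast hs
    obtain ⟨Y, hY⟩ : ∃ Y, Y = x ^ ((1 : ℝ) / j) := ⟨_, rfl⟩
    have hYj : Y ^ j = x := by rw [hY]; exact root_pow hx0.le hj
    rw [← hY] at hlt
    obtain ⟨L, hLdef⟩ : ∃ L : ℝ, L = (2 * (s : ℝ)) ^ j := ⟨_, rfl⟩
    have hsL : 2 * (s : ℝ) ≤ L := by
      rw [hLdef]
      exact le_self_pow₀ (by linarith) (by omega)
    have hL2 : 2 ≤ L := by linarith
    have hLx : 22 * L < x := by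
      calc 22 * L ≤ 22 ^ j * L := by
            apply mul_le_mul_of_nonneg_right _ (by linarith)
            exact le_self_pow₀ (by norm_num) (by omega)
        _ = (44 * (s : ℝ)) ^ j := by rw [hLdef, ← mul_pow]; ring
        _ < Y ^ j := pow_lt_pow_left₀ (by linarith) (by positivity) (by omega)
        _ = x := hYj
    have hlogL0 : 0 < Real.log L := Real.log_pos (by linarith)
    have hlogLmu : Real.log L < m' := by
      rw [hmu]
      exact Real.log_lt_log (by linarith) (by linarith)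
    have hpow2 : (2 * (s : ℝ)) ^ (2 * j + 1) ≤ L ^ 3 := by
      rw [pow_succ, pow_mul, mul_comm (2 : ℝ) (s : ℝ), ← pow_mul, mul_comm 2 j, pow_mul,
        mul_comm (s : ℝ) 2, ← hLdef]
      calc L ^ 2 * (2 * s) ≤ L ^ 2 * L := by gcongr
        _ = L ^ 3 := by ring
    have hlogA : Real.log (11 * ((2 * (s : ℝ)) ^ (2 * j + 1) + 1)) ≤ 7 * Real.log L := by
      have h2 : 11 * ((2 * (s : ℝ)) ^ (2 * j + 1) + 1) ≤ L ^ 7 := by
        have h3 : 8 ≤ L ^ 3 := by
          calc (8 : ℝ) = 2 ^ 3 := by norm_num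
            _ ≤ L ^ 3 := pow_le_pow_left₀ (by norm_num) hL2 3
        have h4 : 16 ≤ L ^ 4 := by
          calc (16 : ℝ) = 2 ^ 4 := by norm_num
            _ ≤ L ^ 4 := pow_le_pow_left₀ (by norm_num) hL2 4
        calc 11 * ((2 * (s : ℝ)) ^ (2 * j + 1) + 1) ≤ 11 * (L ^ 3 + 1) := by gcongr
          _ ≤ 16 * L ^ 3 := by linarith
          _ ≤ L ^ 4 * L ^ 3 := by gcongr
          _ = L ^ 7 := by ring
      calc _ ≤ Real.log (L ^ 7) := Real.log_le_log (by positivity) h2
        _ = 7 * Real.log L := by rw [Real.log_pow]; push_cast; ring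
    have hlog4 : Real.log 4 ≤ 2 * Real.log L := by
      have h2 : Real.log 4 = 2 * Real.log 2 := by
        rw [show (4 : ℝ) = 2 ^ 2 by norm_num, Real.log_pow]
        push_cast
        ring
      have h3 := Real.log_le_log (by norm_num) hL2
      rw [h2]
      linarith
    have hlt2 : (11 * ((2 * s) ^ (2 * j + 1) + 1)) ^ (2 * (2 * s) ^ j + 1) * 4 ^ (2 * (2 * s) ^ j) < n := by
      have hn0 : (0 : ℝ) < n := by linarith
      have h2 : ((11 * ((2 * (s : ℝ)) ^ (2 * j + 1) + 1)) ^ (2 * (2 * s) ^ j + 1) *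
          4 ^ (2 * (2 * s) ^ j) : ℝ) < n := by
        rw [← Real.log_lt_log_iff (by positivity) hn0, Real.log_mul (by positivity) (by positivity),
          Real.log_pow, Real.log_pow]
        push_cast
        rw [← hLdef, ← hℓ, ← hxmu]
        have e1 : (2 * L + 1) * Real.log (11 * ((2 * (s : ℝ)) ^ (2 * j + 1) + 1)) ≤
            (2 * L + 1) * (7 * Real.log L) := mul_le_mul_of_nonneg_left hlogA (by linarith)
        have e2 : 2 * L * Real.log 4 ≤ 2 * L * (2 * Real.log L) :=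
          mul_le_mul_of_nonneg_left hlog4 (by linarith)
        have e3 : 22 * L * Real.log L < x * m' := by
          calc 22 * L * Real.log L < x * Real.log L := mul_lt_mul_of_pos_right hLx hlogL0
            _ ≤ x * m' := mul_le_mul_of_nonneg_left hlogLmu.le hx0.le
        have e4 : 7 * Real.log L ≤ 7 * Real.log L * (L / 2) := by
          have : 1 ≤ L / 2 := by linarith
          nlinarith
        nlinarith
      exact_mod_cast h2
    exact hF (2 * j + 1) j j s n hs le_rfl (by omega) (by omega) hlt2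

/-- the upper bound for even treewidth -/
theorem upper_even (hF : S_FUB) {j n : ℕ} (hj : 1 ≤ j) (hn : 3 ≤ n) :
    (f (2 * j) n : ℝ) ≤ 9 * j * Real.log n ^ ((1 : ℝ) / j) := by
  have hL := one_lt_log hn
  have hj1 : (1 : ℝ) ≤ j := by exact_mod_cast hj
  have hn3 : (3 : ℝ) ≤ n := by exact_mod_cast hn
  obtain ⟨Y, hY⟩ : ∃ Y, Y = Real.log n ^ ((1 : ℝ) / j) := ⟨_, rfl⟩
  have hY1 : 1 ≤ Y := by
    rw [hY]
    exact Real.one_le_rpow hL.le (by positivity)
  have hYj : Y ^ j = Real.log n := by rw [hY]; exact root_pow (by linarith) hj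
  rw [← hY]
  obtain ⟨s, hs⟩ : ∃ s : ℕ, s = ⌈3 * Y⌉₊ := ⟨_, rfl⟩
  have hs1 : 3 * Y ≤ s := by rw [hs]; exact Nat.le_ceil _
  have hs2 : (s : ℝ) < 3 * Y + 1 := by rw [hs]; exact Nat.ceil_lt_add_one (by linarith)
  have hs0 : 1 ≤ s := by
    have : (1 : ℝ) ≤ s := by linarith
    exact_mod_cast this
  have hpow : 3 * Real.log n ≤ (s : ℝ) ^ j := by
    calc 3 * Real.log n ≤ 3 ^ j * Real.log n := by
          apply mul_le_mul_of_nonneg_right _ (by linarith)
          exact le_self_pow₀ (by norm_num) (by omega)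
      _ = (3 * Y) ^ j := by rw [mul_pow, hYj]
      _ ≤ (s : ℝ) ^ j := pow_le_pow_left₀ (by linarith) hs1 j
  have hle : n + 1 ≤ (1 + 1) ^ (s ^ j) := by
    have h1 : ((n : ℝ) + 1) ≤ (1 + 1 : ℝ) ^ (s ^ j) := by
      rw [← Real.log_le_log_iff (by linarith) (by positivity), Real.log_pow]
      push_cast
      have h2 : Real.log ((n : ℝ) + 1) ≤ 2 * Real.log n := by
        have h2 : Real.log ((n : ℝ) + 1) ≤ Real.log ((n : ℝ) ^ 2) :=
          Real.log_le_log (by linarith) (by nlinarith)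
        rw [Real.log_pow] at h2
        push_cast at h2
        exact h2
      have h3 := Real.log_two_gt_d9
      have h4 : Real.log (1 + 1 : ℝ) = Real.log 2 := by norm_num
      rw [h4]
      nlinarith
    exact_mod_cast h1
  have hf : f (2 * j + 0) n ≤ 1 + 2 * j * s := hF j s 1 0 n hs0 le_rfl (Or.inl rfl) (by omega)
  rw [add_zero] at hf
  have hfR : (f (2 * j) n : ℝ) ≤ 1 + 2 * j * s := by exact_mod_cast hf
  have h8 : (s : ℝ) ≤ 4 * Y := by linarith
  have h9 : (1 : ℝ) ≤ j * Y := by nlinarith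
  have h10 : (j : ℝ) * s ≤ j * (4 * Y) := mul_le_mul_of_nonneg_left h8 (by linarith)
  linarith

/-- the upper bound for odd treewidth -/
theorem upper_odd (hF : S_FUB) {j n : ℕ} (hj : 1 ≤ j) (hn : 3 ≤ n) :
    (f (2 * j + 1) n : ℝ) ≤ 15 * j * (Real.log n / Real.log (Real.log n)) ^ ((1 : ℝ) / j) := by
  have hL := one_lt_log hn
  have hj1 : (1 : ℝ) ≤ j := by exact_mod_cast hj
  have hn3 : (3 : ℝ) ≤ n := by exact_mod_cast hn
  obtain ⟨ℓ, hℓ⟩ : ∃ ℓ : ℝ, ℓ = Real.log n := ⟨_, rfl⟩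
  obtain ⟨m', hmu⟩ : ∃ m' : ℝ, m' = Real.log ℓ := ⟨_, rfl⟩
  rw [← hℓ] at hL ⊢
  rw [← hmu]
  have hmu0 : 0 < m' := by rw [hmu]; exact Real.log_pos hL
  obtain ⟨x, hx⟩ : ∃ x : ℝ, x = ℓ / m' := ⟨_, rfl⟩
  have hxmu : x * m' = ℓ := by rw [hx]; exact div_mul_cancel₀ _ hmu0.ne'
  have hx2 : 2 ≤ x := by
    rw [hx, le_div_iff₀ hmu0, hmu]
    have := log_le_half (show 0 < ℓ by linarith)
    linarith
  rw [← hx]
  obtain ⟨Y, hY⟩ : ∃ Y, Y = x ^ ((1 : ℝ) / j) := ⟨_, rfl⟩
  have hY1 : 1 ≤ Y := by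
    rw [hY]
    exact Real.one_le_rpow (by linarith) (by positivity)
  have hYj : Y ^ j = x := by rw [hY]; exact root_pow (by linarith) hj
  rw [← hY]
  obtain ⟨s, hs⟩ : ∃ s : ℕ, s = ⌈4 * Y⌉₊ := ⟨_, rfl⟩
  have hs1 : 4 * Y ≤ s := by rw [hs]; exact Nat.le_ceil _
  have hs2 : (s : ℝ) < 4 * Y + 1 := by rw [hs]; exact Nat.ceil_lt_add_one (by linarith)
  have hs0 : 1 ≤ s := by
    have : (1 : ℝ) ≤ s := by linarith
    exact_mod_cast this
  have h4j : 4 * (j : ℝ) ≤ 4 ^ j := by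
    have h3 : j ≤ 4 ^ (j - 1) := by
      have : j - 1 < 2 ^ (j - 1) := Nat.lt_two_pow_self
      have h3 : 2 ^ (j - 1) ≤ 4 ^ (j - 1) := Nat.pow_le_pow_left (by norm_num) _
      omega
    have h4 : 4 * j ≤ 4 ^ j := by
      calc 4 * j ≤ 4 * 4 ^ (j - 1) := by omega
        _ = 4 ^ (j - 1 + 1) := by rw [pow_succ]; ring
        _ = 4 ^ j := by rw [Nat.sub_add_cancel hj]
    exact_mod_cast h4
  have hpow : 4 * j * x ≤ (s : ℝ) ^ j := by
    calc 4 * j * x ≤ 4 ^ j * x := mul_le_mul_of_nonneg_right h4j (by linarith)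
      _ = (4 * Y) ^ j := by rw [mul_pow, hYj]
      _ ≤ (s : ℝ) ^ j := pow_le_pow_left₀ (by linarith) hs1 j
  have hlog : m' / (2 * j) ≤ Real.log ((s : ℝ) + 1) := by
    have h1 : Real.log Y ≤ Real.log ((s : ℝ) + 1) :=
      Real.log_le_log (by linarith) (by linarith)
    have h2 : Real.log Y = 1 / j * Real.log x := by rw [hY, Real.log_rpow (by linarith)]
    have h3 : Real.log x = m' - Real.log m' := by
      rw [hx, Real.log_div (by linarith) hmu0.ne', hmu]
    have h5 : Real.log m' ≤ m' / 2 := log_le_half hmu0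
    have h6 : m' / (2 * j) = 1 / j * (m' / 2) := by field_simp
    have h7 : 1 / (j : ℝ) * (m' / 2) ≤ 1 / j * Real.log x := by
      apply mul_le_mul_of_nonneg_left _ (by positivity)
      rw [h3]
      linarith
    rw [h6]
    linarith
  have hle : n + 1 ≤ (s + 1) ^ (s ^ j) := by
    have h1 : ((n : ℝ) + 1) ≤ ((s : ℝ) + 1) ^ (s ^ j) := by
      rw [← Real.log_le_log_iff (by linarith) (by positivity), Real.log_pow]
      push_cast
      have h2 : Real.log ((n : ℝ) + 1) ≤ 2 * ℓ := by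
        have h2 : Real.log ((n : ℝ) + 1) ≤ Real.log ((n : ℝ) ^ 2) :=
          Real.log_le_log (by linarith) (by nlinarith)
        rw [Real.log_pow] at h2
        push_cast at h2
        rw [hℓ]
        exact h2
      have h3 : 2 * ℓ = 4 * j * x * (m' / (2 * j)) := by
        rw [← hxmu]
        field_simp
        ring
      rw [h3] at h2
      refine h2.trans ?_
      exact mul_le_mul hpow hlog (by positivity) (by positivity)
    exact_mod_cast h1
  have hf : f (2 * j + 1) n ≤ s + 2 * j * s := hF j s s 1 n hs0 hs0 (Or.inr rfl) (by omega)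
  have hfR : (f (2 * j + 1) n : ℝ) ≤ s + 2 * j * s := by exact_mod_cast hf
  have h8 : (s : ℝ) ≤ 5 * Y := by linarith
  have h9 : (s : ℝ) ≤ j * s := by nlinarith
  have h10 : (j : ℝ) * s ≤ j * (5 * Y) := mul_le_mul_of_nonneg_left h8 (by linarith)
  linarith

end Pool.Agent.Y125.LIP
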